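import Pool.Agent.L5helper90.Frenet.FrameLen

/-!
# The length of the Frenet frame exceeds `2π μ(n)`

The number `μ(n)` is `1` for `n ≥ 4`, and the length of the frame is larger than the length
`∫ κ_1 ds` of the tangent indicatrix, which is at least `2π` by Fenchel's theorem (proved in
`Pool.Agent.L5helper90.Frenet.Fenchel` for all dimensions).

The definitions are in `Pool.Agent.L5helper90.Frenet.Defs`.
-/

open Pool.Agent.L5helper90.Frenet

namespace Pool.Agent.Results.MP_f07be6_gt.FrameLength

/-- For every nondegenerate closed curve in `ℝ^{n+1}`, `n + 1 ≥ 4`, the length of its Frenet frame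
is larger than `2π μ(n+1)`. -/
theorem result : ∀ n : ℕ, 4 ≤ n + 1 → ∀ γ : ℝ → E (n + 1), IsClosedCurve γ → Nondegenerate γ →
    2 * Real.pi * (mu (n + 1) : ℝ) < frameLength γ := by
  intro n hn γ hγ hnd
  rw [mu_eq_one (n + 1) hn, Nat.cast_one, mul_one]
  exact two_pi_lt_frameLength (by omega) hγ hnd

end Pool.Agent.Results.MP_f07be6_gt.FrameLength
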