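import Pool.Agent.L5helper90.Frenet.Mu

/-!
# `μ(n) = 1` for every `n ≥ 4`

In even dimension the curve `(cos t, sin t, ε cos 2t, ε sin 2t, …)` is nondegenerate. In odd
dimension `n = 2q + 5` the curve has the coordinates `cos t`, `sin t`, `ε cos wt`, `ε sin wt`
(`6 ≤ w ≤ q + 5`) and three trigonometric polynomials `ε x_j` with the frequencies `2, 3, 5` such
that `D ∏ (D² + w²) x_j` (`D = d / dt`, the product over `w = 1, 6, …, q + 5`) are the functions
`√7 cos 3t + √8 cos 2t`, `√7 sin 3t - √8 sin 2t`, `cos 5t`; the Wronskian of these three functions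
is `-√56 (6 cos² 5t + 25)`, which has no zero.

The definitions are in `Pool.Agent.L5helper90.Frenet.Defs`.
-/

open Pool.Agent.L5helper90.Frenet

namespace Pool.Agent.Results.MP_f07be6_gt.MuEqualsOne

/-- For every `n ≥ 4` the least `m ≥ 1` such that every `C^∞`-neighbourhood of the plane unit circle
traversed `m` times contains a nondegenerate closed curve in `ℝ^n` is `1`. -/
theorem result : ∀ n : ℕ, 4 ≤ n → IsLeast {m : ℕ | 1 ≤ m ∧ Perturbable n m} 1 :=
  fun n hn => ⟨⟨le_refl 1, perturbable_one n hn⟩, fun _ hm => hm.1⟩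

end Pool.Agent.Results.MP_f07be6_gt.MuEqualsOne
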